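import Pool.Agent.H14.JnD

namespace Pool.Agent.Results.MP_97e4cf_co.Generic
open Pool.Agent.H14.Ine1 Pool.Agent.H14.JnD

theorem result :
    ∀ (N : ℕ) (E : Set (Sym2 (Fin N))) (M : E → ℝ) (m n : ℕ),
      M ∈ interior {M | MinRank E M N} → (∃ A, Completes E M A ∧ HasInertia A m n) →
      Bicol E m n :=
  both.2

end Pool.Agent.Results.MP_97e4cf_co.Generic
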